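import Mathlib
import Pool.Agent.U581.LB.Stm

/-!
# Project LB, package FIN: the theorem for Lebesgue averages
-/

set_option autoImplicit false

namespace Pool.Agent.U338.LB.FIN

open Real MeasureTheory Filter Topology ProbabilityTheory Pool.Agent.U581.BM Pool.Agent.U581.LB
open scoped BoundedContinuousFunction NNReal

/-- Lebesgue measure on `[1, 2]` -/
noncomputable def m12 : Measure ℝ := volume.restrict (Set.Icc 1 2)

instance : IsProbabilityMeasure m12 := ⟨by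
  unfold m12
  rw [Measure.restrict_apply_univ, Real.volume_Icc]
  norm_num⟩

lemma int_m12 {E : Type} [NormedAddCommGroup E] [NormedSpace ℝ E] (f : ℝ → E) :
    ∫ x, f x ∂m12 = ∫ x in (1 : ℝ)..2, f x := by
  unfold m12
  rw [intervalIntegral.integral_of_le (by norm_num : (1 : ℝ) ≤ 2), integral_Icc_eq_integral_Ioc]

lemma four (t : ℝ) (ht : 1 ≤ |t|) :
    ‖∫ x, Complex.exp (((t * x : ℝ) : ℂ) * Complex.I) ∂m12‖ ≤ 2 * |t| ^ (-(1 / 2 : ℝ)) := by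
  have ht0 : t ≠ 0 := by
    rintro rfl
    norm_num at ht
  have hc : (t : ℂ) * Complex.I ≠ 0 := mul_ne_zero (by exact_mod_cast ht0) Complex.I_ne_zero
  rw [int_m12]
  have h1 : ∀ x : ℝ, Complex.exp (((t * x : ℝ) : ℂ) * Complex.I) =
      Complex.exp ((t : ℂ) * Complex.I * (x : ℂ)) := by
    intro x
    congr 1
    push_cast
    ring
  simp_rw [h1]
  rw [integral_exp_mul_complex hc, norm_div, norm_mul, Complex.norm_I, mul_one, Complex.norm_real,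
    Real.norm_eq_abs]
  have h2 : ‖Complex.exp ((t : ℂ) * Complex.I * ((2 : ℝ) : ℂ)) -
      Complex.exp ((t : ℂ) * Complex.I * ((1 : ℝ) : ℂ))‖ ≤ 2 := by
    refine (norm_sub_le _ _).trans ?_
    have e : ∀ y : ℝ, ‖Complex.exp ((t : ℂ) * Complex.I * (y : ℂ))‖ = 1 := by
      intro y
      rw [show (t : ℂ) * Complex.I * (y : ℂ) = ((t * y : ℝ) : ℂ) * Complex.I by push_cast; ring]
      exact Complex.norm_exp_ofReal_mul_I _
    rw [e, e]
    norm_num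
  have hpos : 0 < |t| := by linarith
  calc ‖Complex.exp ((t : ℂ) * Complex.I * ((2 : ℝ) : ℂ)) -
      Complex.exp ((t : ℂ) * Complex.I * ((1 : ℝ) : ℂ))‖ / |t| ≤ 2 / |t| := by gcongr
    _ = 2 * |t| ^ (-1 : ℝ) := by rw [Real.rpow_neg_one]; ring
    _ ≤ 2 * |t| ^ (-(1 / 2 : ℝ)) := by
        apply mul_le_mul_of_nonneg_left _ (by norm_num)
        exact Real.rpow_le_rpow_of_exponent_le ht (by norm_num)

lemma adm (T : ℝ) (hT : 1 ≤ T) : AdmL 1 2 2 (1 / 2) T m12 where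
  prob := inferInstance
  supp := by
    have h := (ae_restrict_mem (measurableSet_Icc : MeasurableSet (Set.Icc (1 : ℝ) 2)) :
      ∀ᵐ r ∂(volume.restrict (Set.Icc (1 : ℝ) 2)), r ∈ Set.Icc (1 : ℝ) 2)
    exact h
  dec := by
    intro t ht _
    exact four t ((Real.one_le_rpow hT (by norm_num)).trans ht)

theorem t_FIN (h : S_MAIN) {Ω : Type} [MeasurableSpace Ω] (P : Measure Ω) (B : ℝ≥0 → Ω → ℝ)
    (hB : IsBrownianReal B P) (F : C(unitInterval, ℝ) →ᵇ ℝ) (ε : ℝ) (hε : 0 < ε) :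
    ∃ (ρ₀ : ℝ) (M₀ : ℕ), 0 < ρ₀ ∧ ∀ (ρ : ℝ) (M : ℕ), 0 < ρ → ρ ≤ ρ₀ → M₀ ≤ M → ∃ T₀ : ℝ, ∀ T : ℝ,
      T₀ ≤ T → |(1 / T) * (∫ R in T..(2 * T), F (pathR ρ M R)) - ∫ ω, F (bpath B ω) ∂P| ≤ ε := by
  obtain ⟨ρ₀, M₀, hρ₀, H⟩ := h 1 2 2 (1 / 2) one_pos (by norm_num) P B hB F ε hε
  refine ⟨ρ₀, M₀, hρ₀, fun ρ M hρ hρ1 hM => ?_⟩
  obtain ⟨T₀, HT⟩ := H ρ M hρ hρ1 hM
  refine ⟨max 1 T₀, fun T hT => ?_⟩
  have hT1 : 1 ≤ T := (le_max_left _ _).trans hT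
  have hT0 : T ≠ 0 := by positivity
  have h1 := HT T ((le_max_right _ _).trans hT) m12 (adm T hT1)
  rw [int_m12] at h1
  have h2 : (1 / T) * (∫ R in T..(2 * T), F (pathR ρ M R)) =
      ∫ x in (1 : ℝ)..2, F (pathR ρ M (T * x)) := by
    have h3 := intervalIntegral.integral_comp_mul_left (a := 1) (b := 2)
      (fun R => F (pathR ρ M R)) hT0
    rw [h3, mul_one, mul_comm T 2, smul_eq_mul, one_div]
  rw [h2]
  exact h1

end Pool.Agent.U338.LB.FIN
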