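import Mathlib
import Pool.Agent.U581.LB.Stm
import Pool.Agent.N48.Ann.NT7

/-!
# Project LB, package UP: upper bounds for sums of `r2 n ^ 2`
-/

set_option autoImplicit false

namespace Pool.Agent.U338.LB.UP

open Real Pool.Agent.U581.LB Pool.Agent.N48.Ann

lemma r2_eq (n : ℕ) : r2 n = ((ZN n).card : ℝ) := by
  unfold r2
  congr 1
  have h : {p : ℤ × ℤ | p.1 ^ 2 + p.2 ^ 2 = (n : ℤ)} = ((ZN n : Finset (ℤ × ℤ)) : Set (ℤ × ℤ)) := by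
    ext p
    simp [mem_ZN]
  have h2 : Nat.card {p : ℤ × ℤ // p.1 ^ 2 + p.2 ^ 2 = (n : ℤ)} =
      Set.ncard {p : ℤ × ℤ | p.1 ^ 2 + p.2 ^ 2 = (n : ℤ)} := by
    rfl
  rw [h2, h, Set.ncard_coe_finset]

lemma sum_sq (X : ℕ) (hX : 1 ≤ X) :
    ∑ n ∈ Finset.Icc 1 X, r2 n ^ 2 ≤ 1000 * (X * (1 + log X)) := by
  have h := sum_r_sq X hX
  calc ∑ n ∈ Finset.Icc 1 X, r2 n ^ 2 = ∑ n ∈ Finset.Icc 1 X, ((ZN n).card : ℝ) ^ 2 := by
        simp [r2_eq]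
    _ ≤ _ := by linarith

lemma term_le (n : ℕ) (hn : 1 ≤ n) (h : ℝ) :
    cf n ^ 2 * min 2 (2 * π ^ 2 * (n * h ^ 2)) ≤
      2 * (r2 n ^ 2 * min ((n : ℝ) ^ (-(3 / 2) : ℝ)) (h ^ 2 * (n : ℝ) ^ (-(1 / 2) : ℝ))) := by
  have hn0 : (0 : ℝ) < n := by exact_mod_cast hn
  have hpi : 0 < π := pi_pos
  have hpi1 : 1 ≤ π ^ 2 := by nlinarith [pi_gt_three]
  have h1 : cf n ^ 2 = r2 n ^ 2 / π ^ 2 * (n : ℝ) ^ (-(3 / 2) : ℝ) := by
    unfold cf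
    rw [mul_pow, div_pow, ← rpow_natCast ((n : ℝ) ^ (-(3 / 4) : ℝ)) 2, ← rpow_mul hn0.le]
    norm_num
  have h2 : (n : ℝ) ^ (-(1 / 2) : ℝ) = (n : ℝ) ^ (-(3 / 2) : ℝ) * n := by
    rw [← rpow_add_one hn0.ne']; norm_num
  set A : ℝ := (n : ℝ) ^ (-(3 / 2) : ℝ) with hA
  have hA0 : 0 ≤ A := rpow_nonneg hn0.le _
  have h3 : min 2 (2 * π ^ 2 * (n * h ^ 2)) ≤ 2 * π ^ 2 * min 1 (n * h ^ 2) := by
    rw [mul_min_of_nonneg _ _ (by positivity : (0 : ℝ) ≤ 2 * π ^ 2)]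
    apply min_le_min _ le_rfl
    nlinarith
  have h4 : min A (h ^ 2 * (A * n)) = A * min 1 (n * h ^ 2) := by
    rw [mul_min_of_nonneg _ _ hA0]
    congr 1 <;> ring
  rw [h1, h2, h4]
  calc r2 n ^ 2 / π ^ 2 * A * min 2 (2 * π ^ 2 * (n * h ^ 2))
      ≤ r2 n ^ 2 / π ^ 2 * A * (2 * π ^ 2 * min 1 (n * h ^ 2)) :=
        mul_le_mul_of_nonneg_left h3 (by positivity)
    _ = 2 * (r2 n ^ 2 * (A * min 1 (n * h ^ 2))) := by
        field_simp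

/-- **package UP** -/
theorem t_UP : S_UP := by
  refine ⟨400000, by norm_num, ?_, ?_⟩
  · intro X hX
    have h := sum_sq X hX
    have h2 : (0 : ℝ) ≤ X * (1 + log X) := by
      have : 0 ≤ log (X : ℝ) := log_nonneg (by exact_mod_cast hX)
      positivity
    linarith
  · intro N h hh hh1
    have hv := u_var (u := fun m => r2 m ^ 2) (C := 1000) (by norm_num) (fun X hX => sum_sq X hX)
      hh hh1 N
    calc ∑ n ∈ Finset.Icc 1 N, cf n ^ 2 * min 2 (2 * π ^ 2 * (n * h ^ 2))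
        ≤ ∑ n ∈ Finset.Icc 1 N, 2 * (r2 n ^ 2 *
          min ((n : ℝ) ^ (-(3 / 2) : ℝ)) (h ^ 2 * (n : ℝ) ^ (-(1 / 2) : ℝ))) :=
          Finset.sum_le_sum fun n hn => term_le n (Finset.mem_Icc.1 hn).1 h
      _ = 2 * ∑ n ∈ Finset.Icc 1 N, (r2 n ^ 2 *
          min ((n : ℝ) ^ (-(3 / 2) : ℝ)) (h ^ 2 * (n : ℝ) ^ (-(1 / 2) : ℝ))) := by
          rw [Finset.mul_sum]
      _ ≤ 2 * (200 * 1000 * (h * (1 + log (1 / h)))) := by
          apply mul_le_mul_of_nonneg_left _ (by norm_num)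
          exact hv
      _ = 400000 * (h * (1 + log (1 / h))) := by ring

end Pool.Agent.U338.LB.UP
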